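import Pool.Agent.Helper84.ET4.Log3

/-! The number of variables (Chebyshev). -/

namespace ET4

open Real

lemma card_X_ge_aux {p : ℕ} (hp : p.Prime) (a : ℕ) :
    (Nat.primeCounting (Nat.sqrt (p ^ (a + 1) - 1)) : ℝ) - 1 ≤ ((X p a).card : ℝ) := by
  have hpos : 0 < p ^ (a + 1) := pow_pos hp.pos _
  have h : Nat.primeCounting (Nat.sqrt (p ^ (a + 1) - 1)) ≤ (X p a).card + 1 := by
    rw [Nat.primeCounting, Nat.primeCounting', Nat.count_eq_card_filter_range]
    refine le_trans (Finset.card_le_card (t := insert p (X p a)) ?_) (Finset.card_insert_le _ _)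
    intro x hx
    rw [Finset.mem_filter, Finset.mem_range] at hx
    rw [Finset.mem_insert, mem_X]
    by_cases hxp : x = p
    · left; exact hxp
    · right
      refine ⟨hx.2, hxp, ?_⟩
      have h1 : x ≤ Nat.sqrt (p ^ (a + 1) - 1) := by omega
      rw [Nat.le_sqrt] at h1
      rw [pow_two]
      omega
  have h2 : (Nat.primeCounting (Nat.sqrt (p ^ (a + 1) - 1)) : ℝ) ≤ ((X p a).card : ℝ) + 1 := by
    exact_mod_cast h
  linarith

/-- A6: lower bound for the number of variables -/
theorem card_X_ge {p : ℕ} (hp : p.Prime) (hp2 : p ≠ 2) {a : ℕ} (ha : 1 ≤ a) :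
    √((p : ℝ) ^ (a + 1)) / (16 * Real.log p * (a + 1)) ≤ ((X p a).card : ℝ) := by
  have hp3 : 3 ≤ p := by
    have := hp.two_le
    omega
  have hpos : 0 < p ^ (a + 1) := pow_pos hp.pos _
  have h9 : 9 ≤ p ^ (a + 1) := by
    calc 9 = 3 ^ 2 := by norm_num
      _ ≤ p ^ 2 := Nat.pow_le_pow_left hp3 2
      _ ≤ p ^ (a + 1) := Nat.pow_le_pow_right hp.pos (by omega)
  have hlogp : 1 ≤ Real.log p := by
    have h3 : (3 : ℝ) ≤ p := by exact_mod_cast hp3
    have h1 : Real.exp 1 ≤ 3 := by
      have := Real.exp_one_lt_d9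
      linarith
    calc (1 : ℝ) = Real.log (Real.exp 1) := (Real.log_exp 1).symm
      _ ≤ Real.log 3 := Real.log_le_log (Real.exp_pos _) h1
      _ ≤ Real.log p := Real.log_le_log (by norm_num) h3
  set y := Nat.sqrt (p ^ (a + 1) - 1) with hy
  have hy1 : p ^ (a + 1) ≤ (y + 1) * (y + 1) := by
    have := Nat.lt_succ_sqrt (p ^ (a + 1) - 1)
    rw [← hy] at this
    have h2 : Nat.succ y = y + 1 := rfl
    rw [h2] at this
    omega
  have hy2 : y * y < p ^ (a + 1) := by
    have := Nat.sqrt_le (p ^ (a + 1) - 1)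
    rw [← hy] at this
    omega
  have hy3 : 2 ≤ y := by
    by_contra hcon
    have : y + 1 ≤ 2 := by omega
    have := Nat.mul_le_mul this this
    omega
  have hsM : √((p : ℝ) ^ (a + 1)) ≤ y + 1 := by
    rw [Real.sqrt_le_left (by positivity)]
    have : ((p ^ (a + 1) : ℕ) : ℝ) ≤ (((y + 1) * (y + 1) : ℕ) : ℝ) := by exact_mod_cast hy1
    push_cast at this
    nlinarith
  have hdenpos : (0 : ℝ) < 16 * Real.log p * (a + 1) := by positivity
  rw [div_le_iff₀ hdenpos]
  rcases Nat.lt_or_ge y 16 with hy16 | hy16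
  · -- small case
    have h2X : 2 ∈ X p a := by
      rw [mem_X]
      exact ⟨Nat.prime_two, fun h => hp2 h.symm, by omega⟩
    have hc : (1 : ℝ) ≤ ((X p a).card : ℝ) := by
      exact_mod_cast Finset.card_pos.2 ⟨2, h2X⟩
    have hy16' : (y : ℝ) + 1 ≤ 16 := by exact_mod_cast hy16
    have ha0 : (1 : ℝ) ≤ (a : ℝ) + 1 := by
      have : (0 : ℝ) ≤ a := Nat.cast_nonneg a
      linarith
    have h5 : (16 : ℝ) ≤ 16 * Real.log p * (a + 1) := by
      have : (1 : ℝ) ≤ Real.log p * (a + 1) := by nlinarith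
      nlinarith
    nlinarith
  · have hyr : (16 : ℝ) ≤ y := by exact_mod_cast hy16
    have hlogy : 0 < Real.log y := Real.log_pos (by linarith)
    have hpsi1 := Chebyshev.psi_ge y
    have hpsi2 := Chebyshev.psi_le_primeCounting_mul_log y
    have haux := card_X_ge_aux hp a
    rw [← hy] at haux
    have hlog2 : (0.69 : ℝ) < Real.log 2 := by
      have := Real.log_two_gt_d9
      linarith
    -- log (y + 1) ≤ y / 16 + log 16 ... use log y ≤ y / 16 + (log 16 - 1)
    have hl1 : Real.log (y + 1) ≤ (y + 1) / 16 + 1.8 := by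
      have h1 : Real.log ((y + 1) / 16) ≤ (y + 1) / 16 - 1 :=
        Real.log_le_sub_one_of_pos (by positivity)
      rw [Real.log_div (by positivity) (by norm_num)] at h1
      have h16 : Real.log 16 = 4 * Real.log 2 := by
        rw [show (16 : ℝ) = 2 ^ 4 by norm_num, Real.log_pow]; norm_num
      have hl2 := Real.log_two_lt_d9
      rw [h16] at h1
      linarith
    have hl2 : Real.log y ≤ Real.log (y + 1) := Real.log_le_log (by linarith) (by linarith)
    have h6 : (y : ℝ) / 8 + 1 / 8 ≤ ((X p a).card : ℝ) * Real.log y := by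
      have h7 : ((Nat.primeCounting y : ℝ) - 1) * Real.log y ≤ ((X p a).card : ℝ) * Real.log y :=
        mul_le_mul_of_nonneg_right haux hlogy.le
      have h8 : (y : ℝ) * 0.69 ≤ y * Real.log 2 := by nlinarith
      nlinarith
    have hlogy2 : Real.log y ≤ (a + 1) / 2 * Real.log p := by
      have h9 : (y : ℝ) ^ 2 ≤ (p : ℝ) ^ (a + 1) := by
        have : ((y * y : ℕ) : ℝ) ≤ ((p ^ (a + 1) : ℕ) : ℝ) := by exact_mod_cast hy2.le
        push_cast at this
        nlinarith
      have h10 := Real.log_le_log (by positivity) h9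
      rw [Real.log_pow, Real.log_pow] at h10
      push_cast at h10
      linarith
    have hcnn : (0 : ℝ) ≤ ((X p a).card : ℝ) := Nat.cast_nonneg _
    have h11 : ((X p a).card : ℝ) * Real.log y ≤ ((X p a).card : ℝ) * ((a + 1) / 2 * Real.log p) :=
      mul_le_mul_of_nonneg_left hlogy2 hcnn
    nlinarith

end ET4
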