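import Pool.Agent.Helper84.ET4.M1
import Pool.Agent.Helper3.M.Defs

/-!
# T4', block M, part (B): keys and free families of hits
-/

namespace Pool.Agent.Helper84.ET

open Finset Pool.Agent.Helper27.T4 Pool.Agent.Helper3.T4 Pool.Agent.Helper5.ET
open Pool.Agent.Helper3.M (AV RpV Pg RR RR' Meso Hit Hits Free C0)

variable {s s' b : ℕ} {f1 f0 : Fin 3}

theorem tau_mono' : Monotone tau := by
  apply monotone_nat_of_le_succ
  intro c
  change tau c ≤ tau c + gap (tau c)
  omega

theorem sl_le_se (s : ℕ) : sl s ≤ se s := tau_mono' (by omega)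

theorem cnt_eq_of_notMem_Pg (h0 : sl s' ≤ sl s) {f : Fin 3} (hf : f ∉ Pg s s') :
    cnt f (sl s) = cnt f (sl s') := by
  unfold Pg at hf
  rw [Finset.mem_filter] at hf
  have h1 := cnt_mono f h0
  have h2 : ¬ cnt f (sl s') < cnt f (sl s) := fun h => hf ⟨Finset.mem_univ _, h⟩
  omega

theorem crank (h : Meso s s' b f1 f0) : CRank s s' (rk (ordK (sl s))) := by
  intro f g hg
  exact h.rank f g (by rw [Finset.mem_union]; exact hg)

theorem sl_le (h : Meso s s' b f1 f0) : sl s' ≤ sl s := h.lb.le.trans h.bl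

/-- the general count -/
theorem pairs_mode (h : Meso s s' b f1 f0) (w : Key → ℕ) (n : ℕ)
    (S : Finset ((Fin 3 → ℕ) × (Fin 3 → ℕ)))
    (hS : ∀ q ∈ S, q ∈ XX s ×ˢ XX s' ∧
      (code s w q.1 + code s' w q.2) % Nj (sl s') = n % Nj (sl s'))
    (hm : ∀ f, f ∈ Pg s s' → (∃ c, ∀ z ∈ S, z.1 f = c) ∨ (∃ c, ∀ z ∈ S, z.2 f = c)) :
    S.card ≤ C0 := by
  have h0 := sl_le h
  refine le_trans (card_pairs_mode s s' w n _ (crank h) S ?_ ?_) prod_le
  · intro z hz
    obtain ⟨h1, h2⟩ := hS z hz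
    rw [Finset.mem_product] at h1
    refine ⟨h1.1, h1.2, ?_⟩
    apply hitEq_of_code h1.1 h1.2 (h0.trans (sl_le_se s)) (sl_le_se s')
    rw [ZMod.natCast_eq_natCast_iff]
    exact h2
  · intro f
    by_cases hf : f ∈ Pg s s'
    · rcases hm f hf with hc | hc
      · exact Or.inr (Or.inl hc)
      · refine Or.inr (Or.inr ⟨?_, hc⟩)
        exact (cnt_mono f (sl_le_se s)).trans (h.grow f)
    · exact Or.inl (cnt_eq_of_notMem_Pg h0 hf)

/-- (B1) -/
theorem pairs_key (h : Meso s s' b f1 f0) (w : Key → ℕ) (n : ℕ) (κ : Fin 3 → ℕ) :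
    ((XX s ×ˢ XX s').filter (fun q => mask (Pg s s') q.1 = κ ∧
      (code s w q.1 + code s' w q.2) % Nj (sl s') = n % Nj (sl s'))).card ≤ C0 := by
  refine pairs_mode h w n _ ?_ ?_
  · intro q hq
    rw [Finset.mem_filter] at hq
    exact ⟨hq.1, hq.2.2⟩
  · intro f hf
    left
    refine ⟨κ f, fun z hz => ?_⟩
    rw [Finset.mem_filter] at hz
    rw [← hz.2.1]
    unfold mask
    rw [if_pos hf]

/-- (B2) -/
theorem pairs_key' (h : Meso s s' b f1 f0) (w : Key → ℕ) (n : ℕ) (κ : Fin 3 → ℕ) :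
    ((XX s ×ˢ XX s').filter (fun q => mask (Pg s s') q.2 = κ ∧
      (code s w q.1 + code s' w q.2) % Nj (sl s') = n % Nj (sl s'))).card ≤ C0 := by
  refine pairs_mode h w n _ ?_ ?_
  · intro q hq
    rw [Finset.mem_filter] at hq
    exact ⟨hq.1, hq.2.2⟩
  · intro f hf
    right
    refine ⟨κ f, fun z hz => ?_⟩
    rw [Finset.mem_filter] at hz
    rw [← hz.2.1]
    unfold mask
    rw [if_pos hf]

/-- greedy choice of an independent set -/
theorem exists_indep {α : Type*} (rel : α → α → Prop) (hrefl : ∀ a, rel a a)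
    (hsymm : ∀ a b, rel a b → rel b a) (D : ℕ) (m : ℕ) :
    ∀ S : Finset α, (∀ a ∈ S, ∀ S' ⊆ S, (∀ c ∈ S', rel a c) → S'.card ≤ D) → D * m < S.card →
      ∃ T ⊆ S, T.card = m + 1 ∧ ∀ a ∈ T, ∀ c ∈ T, a ≠ c → ¬ rel a c := by
  classical
  induction m with
  | zero =>
    intro S _ hS
    rw [mul_zero] at hS
    obtain ⟨a, ha⟩ := Finset.card_pos.mp hS
    refine ⟨{a}, by simpa using ha, by simp, ?_⟩
    intro x hx y hy hxy
    rw [Finset.mem_singleton] at hx hy
    exact absurd (hx.trans hy.symm) hxy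
  | succ m ih =>
    intro S hD hS
    have hne : 0 < S.card := by omega
    obtain ⟨a, ha⟩ := Finset.card_pos.mp hne
    have h1 : (S.filter (fun c => rel a c)).card ≤ D :=
      hD a ha _ (Finset.filter_subset _ _) (fun c hc => (Finset.mem_filter.mp hc).2)
    have h2 := Finset.card_filter_add_card_filter_not (s := S) (fun c => rel a c)
    have h3 : D * m < (S.filter (fun c => ¬ rel a c)).card := by
      have : D * (m + 1) = D * m + D := by ring
      omega
    obtain ⟨T, hT, hTc, hTi⟩ := ih (S.filter (fun c => ¬ rel a c)) (by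
      intro x hx S' hS' hr
      exact hD x (Finset.mem_filter.mp hx).1 S' (hS'.trans (Finset.filter_subset _ _)) hr) h3
    have haT : a ∉ T := fun h => (Finset.mem_filter.mp (hT h)).2 (hrefl a)
    refine ⟨insert a T, ?_, ?_, ?_⟩
    · intro x hx
      rcases Finset.mem_insert.mp hx with rfl | hx
      · exact ha
      · exact (Finset.mem_filter.mp (hT hx)).1
    · rw [Finset.card_insert_of_notMem haT, hTc]
    · intro x hx y hy hxy
      rcases Finset.mem_insert.mp hx with hx1 | hx1 <;>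
        rcases Finset.mem_insert.mp hy with hy1 | hy1
      · exact absurd (hx1.trans hy1.symm) hxy
      · rw [hx1]
        exact (Finset.mem_filter.mp (hT hy1)).2
      · rw [hy1]
        exact fun hr => (Finset.mem_filter.mp (hT hx1)).2 (hsymm _ _ hr)
      · exact hTi x hx1 y hy1 hxy

theorem Nj_pos (j : ℕ) : 0 < Nj j := NN_pos pr_prime _

/-- the number of hits with given `(x, x')` -/
theorem hits_fiber (h0 : sl s' ≤ sl s) (w : Key → ℕ) (V V' : Finset ℕ) (R n : ℕ)
    (hR : ∀ M, ((V ×ˢ V').filter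
      (fun q => Nj (sl s) / Nj (sl s') * q.1 + q.2 = M)).card ≤ R) (q : (Fin 3 → ℕ) × (Fin 3 → ℕ)) :
    ((Hits s s' w V V' n).filter (fun z => (z.1.1, z.2.1) = q)).card ≤ R := by
  classical
  refine le_trans ?_ (hR ((n - code s w q.1 - code s' w q.2) / Nj (sl s')))
  apply Finset.card_le_card_of_injOn (fun z => (z.1.2, z.2.2))
  · intro z hz
    have hz1 := Finset.mem_filter.mp (Finset.mem_coe.mp hz)
    have hz2 := hz1.1
    unfold Hits at hz2
    rw [Finset.mem_filter, Finset.mem_product, Finset.mem_product, Finset.mem_product] at hz2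
    obtain ⟨⟨⟨hx, hv⟩, hx', hv'⟩, he⟩ := hz2
    have hq := hz1.2
    subst hq
    rw [Finset.mem_coe, Finset.mem_filter, Finset.mem_product]
    refine ⟨⟨hv, hv'⟩, ?_⟩
    change Nj (sl s) / Nj (sl s') * z.1.2 + z.2.2 =
      (n - code s w z.1.1 - code s' w z.2.1) / Nj (sl s')
    rw [← he]
    unfold el
    have hq := Nat.div_mul_cancel (Nj_dvd h0)
    have h5 : code s w z.1.1 + Nj (sl s) * z.1.2 + (code s' w z.2.1 + Nj (sl s') * z.2.2) -
        code s w z.1.1 - code s' w z.2.1 =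
        Nj (sl s') * (Nj (sl s) / Nj (sl s') * z.1.2 + z.2.2) := by
      have h6 : Nj (sl s) * z.1.2 = Nj (sl s') * (Nj (sl s) / Nj (sl s') * z.1.2) := by
        rw [← mul_assoc, mul_comm (Nj (sl s')), hq]
      rw [mul_add, ← h6]
      omega
    rw [h5, Nat.mul_div_cancel_left _ (Nj_pos _)]
  · intro z hz z' hz' hzz
    have hz1 := (Finset.mem_filter.mp (Finset.mem_coe.mp hz)).2
    have hz1' := (Finset.mem_filter.mp (Finset.mem_coe.mp hz')).2
    have h1 := hz1.trans hz1'.symm
    have e1 := congrArg Prod.fst h1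
    have e2 := congrArg Prod.snd h1
    have e3 := congrArg Prod.fst hzz
    have e4 := congrArg Prod.snd hzz
    exact Prod.ext (Prod.ext e1 e3) (Prod.ext e2 e4)

/-- (B3) -/
theorem exists_free (h : Meso s s' b f1 f0) (w : Key → ℕ) (V V' : Finset ℕ) (R n m : ℕ)
    (hR : ∀ M, ((V ×ˢ V').filter
      (fun q => Nj (sl s) / Nj (sl s') * q.1 + q.2 = M)).card ≤ R)
    (hm : 2 * C0 * R * m < RpV s s' w V V' n) :
    ∃ T ⊆ Hits s s' w V V' n, T.card = m + 1 ∧ Free s s' T := by
  classical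
  have h0 := sl_le h
  set H := Hits s s' w V V' n with hH
  set Q := H.image (fun z => (z.1.1, z.2.1)) with hQ
  have hRp : RpV s s' w V V' n ≤ H.card := by
    unfold RpV
    refine le_trans (Finset.card_le_card (t := H.image (fun z =>
      (el s w z.1.1 z.1.2, el s' w z.2.1 z.2.2))) ?_) Finset.card_image_le
    intro q hq
    rw [Finset.mem_filter, Finset.mem_product] at hq
    obtain ⟨⟨ha, ha'⟩, he⟩ := hq
    unfold AV at ha ha'
    obtain ⟨y, hy, hy2⟩ := Finset.mem_image.mp ha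
    obtain ⟨y', hy', hy2'⟩ := Finset.mem_image.mp ha'
    rw [Finset.mem_image]
    refine ⟨(y, y'), ?_, Prod.ext hy2 hy2'⟩
    rw [hH]
    unfold Hits
    rw [Finset.mem_filter, Finset.mem_product]
    refine ⟨⟨hy, hy'⟩, ?_⟩
    change el s w y.1 y.2 + el s' w y'.1 y'.2 = n
    rw [hy2, hy2', he]
  have hHQ : H.card ≤ R * Q.card := by
    apply Finset.card_le_mul_card_image
    intro q _
    exact hits_fiber h0 w V V' R n hR q
  have hQc : 2 * C0 * m < Q.card := by
    have h1 : R * (2 * C0 * m) < R * Q.card := by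
      calc R * (2 * C0 * m) = 2 * C0 * R * m := by ring
        _ < RpV s s' w V V' n := hm
        _ ≤ R * Q.card := hRp.trans hHQ
    exact lt_of_mul_lt_mul_left h1 (Nat.zero_le _)
  -- every element of `Q` satisfies the equation
  have hQe : ∀ q ∈ Q, q ∈ XX s ×ˢ XX s' ∧
      (code s w q.1 + code s' w q.2) % Nj (sl s') = n % Nj (sl s') := by
    intro q hq
    obtain ⟨z, hz, rfl⟩ := Finset.mem_image.mp hq
    rw [hH] at hz
    unfold Hits at hz
    rw [Finset.mem_filter, Finset.mem_product, Finset.mem_product, Finset.mem_product] at hz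
    obtain ⟨⟨⟨hx, hv⟩, hx', hv'⟩, he⟩ := hz
    refine ⟨Finset.mem_product.mpr ⟨hx, hx'⟩, ?_⟩
    change (code s w z.1.1 + code s' w z.2.1) % Nj (sl s') = n % Nj (sl s')
    rw [← he]
    unfold el
    obtain ⟨c, hc⟩ := Nj_dvd h0
    rw [hc]
    have : code s w z.1.1 + Nj (sl s') * c * z.1.2 + (code s' w z.2.1 + Nj (sl s') * z.2.2) =
        code s w z.1.1 + code s' w z.2.1 + Nj (sl s') * (c * z.1.2 + z.2.2) := by ring
    rw [this, Nat.add_mul_mod_self_left]
  obtain ⟨T, hTQ, hTc, hTi⟩ := exists_indep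
    (fun q q' : (Fin 3 → ℕ) × (Fin 3 → ℕ) => mask (Pg s s') q.1 = mask (Pg s s') q'.1 ∨
      mask (Pg s s') q.2 = mask (Pg s s') q'.2) (fun a => Or.inl rfl)
    (fun a c hac => hac.elim (fun h => Or.inl h.symm) (fun h => Or.inr h.symm)) (2 * C0) m Q (by
      intro a ha S' hS' hrel
      have h1 : S' ⊆ (S'.filter (fun c => mask (Pg s s') a.1 = mask (Pg s s') c.1)) ∪
          (S'.filter (fun c => mask (Pg s s') a.2 = mask (Pg s s') c.2)) := by
        intro c hc
        rw [Finset.mem_union, Finset.mem_filter, Finset.mem_filter]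
        rcases hrel c hc with h | h
        · exact Or.inl ⟨hc, h⟩
        · exact Or.inr ⟨hc, h⟩
      have h2 : (S'.filter (fun c => mask (Pg s s') a.1 = mask (Pg s s') c.1)).card ≤ C0 := by
        refine pairs_mode h w n _ (fun q hq => hQe q (hS' (Finset.mem_filter.mp hq).1)) ?_
        intro f hf
        left
        refine ⟨a.1 f, fun z hz => ?_⟩
        have h5 := congrFun (Finset.mem_filter.mp hz).2 f
        unfold mask at h5
        rw [if_pos hf, if_pos hf] at h5
        exact h5.symm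
      have h3 : (S'.filter (fun c => mask (Pg s s') a.2 = mask (Pg s s') c.2)).card ≤ C0 := by
        refine pairs_mode h w n _ (fun q hq => hQe q (hS' (Finset.mem_filter.mp hq).1)) ?_
        intro f hf
        right
        refine ⟨a.2 f, fun z hz => ?_⟩
        have h5 := congrFun (Finset.mem_filter.mp hz).2 f
        unfold mask at h5
        rw [if_pos hf, if_pos hf] at h5
        exact h5.symm
      have h4 := (Finset.card_le_card h1).trans (Finset.card_union_le _ _)
      omega) hQc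
  -- choose a hit for every pair
  have hch : ∀ q : (Fin 3 → ℕ) × (Fin 3 → ℕ), ∃ z : Hit, q ∈ T → z ∈ H ∧ (z.1.1, z.2.1) = q := by
    intro q
    by_cases hq : q ∈ T
    · obtain ⟨z, hz, hz2⟩ := Finset.mem_image.mp (hTQ hq)
      exact ⟨z, fun _ => ⟨hz, hz2⟩⟩
    · exact ⟨((0, 0), (0, 0)), fun hq' => absurd hq' hq⟩
  choose g hg using hch
  refine ⟨T.image g, ?_, ?_, ?_⟩
  · intro z hz
    obtain ⟨q, hq, rfl⟩ := Finset.mem_image.mp hz
    exact (hg q hq).1
  · rw [Finset.card_image_of_injOn, hTc]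
    intro q hq q' hq' hqq
    rw [← (hg q hq).2, ← (hg q' hq').2, hqq]
  · intro z hz z' hz' hzz
    obtain ⟨q, hq, rfl⟩ := Finset.mem_image.mp hz
    obtain ⟨q', hq', rfl⟩ := Finset.mem_image.mp hz'
    have hne : q ≠ q' := fun h => hzz (by rw [h])
    have h1 := hTi q hq q' hq' hne
    have e1 := (hg q hq).2
    have e2 := (hg q' hq').2
    have e3 : (g q).1.1 = q.1 := congrArg Prod.fst e1
    have e4 : (g q).2.1 = q.2 := congrArg Prod.snd e1
    have e5 : (g q').1.1 = q'.1 := congrArg Prod.fst e2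
    have e6 : (g q').2.1 = q'.2 := congrArg Prod.snd e2
    rw [e3, e4, e5, e6]
    exact ⟨fun h => h1 (Or.inl h), fun h => h1 (Or.inr h)⟩

end Pool.Agent.Helper84.ET
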