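import Mathlib

/-! Sidon type sets in arcs, tuples over several families. -/

namespace ET4

/-- the abstract counting lemma: few representations of sums, few sums -/
theorem card_sq_le_of_sums {ι G : Type*} [DecidableEq G] [Add G] (S : Finset ι) (c : ι → G)
    (J : Finset G) (R : ℕ) (hJ : ∀ x ∈ S, ∀ y ∈ S, c x + c y ∈ J)
    (hR : ∀ t ∈ J, ((S ×ˢ S).filter fun q => c q.1 + c q.2 = t).card ≤ R) :
    S.card ^ 2 ≤ R * J.card := by
  classical
  have h : (S ×ˢ S).card ≤ R * J.card := by
    apply Finset.card_le_mul_card_image_of_maps_to (f := fun q : ι × ι => c q.1 + c q.2)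
    · intro q hq
      rw [Finset.mem_product] at hq
      exact hJ _ hq.1 _ hq.2
    · intro t ht
      exact hR t ht
  rwa [Finset.card_product, ← pow_two] at h

/-- the number of integers of a residue class in an interval of length `L` -/
lemma card_Ico_modEq_le (u : ℤ) (L N : ℕ) (hN : 0 < N) (r : ℤ) :
    ((Finset.Ico u (u + L)).filter fun t => t ≡ r [ZMOD N]).card ≤ L / N + 1 := by
  classical
  have h : ((Finset.Ico u (u + L)).filter fun t => t ≡ r [ZMOD N]).card ≤
      (Finset.range (L / N + 1)).card := by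
    apply Finset.card_le_card_of_injOn (fun t => ((t - u) / N).toNat)
    · intro t ht
      have ht' := Finset.mem_filter.1 (Finset.mem_coe.1 ht)
      have h1 := Finset.mem_Ico.1 ht'.1
      rw [Finset.mem_coe, Finset.mem_range]
      change ((t - u) / (N : ℤ)).toNat < L / N + 1
      have hN' : (0 : ℤ) < N := by exact_mod_cast hN
      have h2 : (t - u) / N ≤ (L : ℤ) / N := Int.ediv_le_ediv hN' (by linarith)
      have h3 : 0 ≤ (t - u) / (N : ℤ) := Int.ediv_nonneg (by linarith) hN'.le
      have h4 : (((L / N : ℕ)) : ℤ) = (L : ℤ) / N := by push_cast; rfl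
      omega
    · intro t ht s hs hts
      have ht' := Finset.mem_filter.1 (Finset.mem_coe.1 ht)
      have hs' := Finset.mem_filter.1 (Finset.mem_coe.1 hs)
      have h1 := Finset.mem_Ico.1 ht'.1
      have h2 := Finset.mem_Ico.1 hs'.1
      have hN' : (0 : ℤ) < N := by exact_mod_cast hN
      have h3 : 0 ≤ (t - u) / (N : ℤ) := Int.ediv_nonneg (by linarith) hN'.le
      have h4 : 0 ≤ (s - u) / (N : ℤ) := Int.ediv_nonneg (by linarith) hN'.le
      have h5 : (t - u) / (N : ℤ) = (s - u) / N := by
        have h6 : ((t - u) / (N : ℤ)).toNat = ((s - u) / (N : ℤ)).toNat := hts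
        omega
      have h6 : (t - u) % (N : ℤ) = (s - u) % N := by
        have : t ≡ s [ZMOD N] := ht'.2.trans hs'.2.symm
        exact (Int.ModEq.sub_right u this)
      have h7 := Int.mul_ediv_add_emod (t - u) N
      have h8 := Int.mul_ediv_add_emod (s - u) N
      rw [h5, h6] at h7
      linarith
  rwa [Finset.card_range] at h

/-- the arc lemma for integer valued codes: all codes lie in `[u, u + L)`, all sums lie in one
residue class modulo `N`, and a sum has at most `R` representations -/
theorem arc_count {ι : Type*} (S : Finset ι) (c : ι → ℤ) (u : ℤ) (L N R : ℕ) (hN : 0 < N) (r : ℤ)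
    (hu : ∀ x ∈ S, u ≤ c x ∧ c x < u + L) (hr : ∀ x ∈ S, ∀ y ∈ S, c x + c y ≡ r [ZMOD N])
    (hR : ∀ t : ℤ, ((S ×ˢ S).filter fun q => c q.1 + c q.2 = t).card ≤ R) :
    S.card ^ 2 ≤ R * (2 * L / N + 1) := by
  classical
  have h := card_sq_le_of_sums S c
    ((Finset.Ico (2 * u) (2 * u + ((2 * L : ℕ) : ℤ))).filter fun t => t ≡ r [ZMOD N]) R ?_
    (fun t _ => hR t)
  · exact h.trans (Nat.mul_le_mul_left R (card_Ico_modEq_le _ _ _ hN _))
  · intro x hx y hy
    rw [Finset.mem_filter, Finset.mem_Ico]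
    have h1 := hu x hx
    have h2 := hu y hy
    refine ⟨⟨by linarith [h1.1, h2.1], ?_⟩, hr x hx y hy⟩
    push_cast
    linarith [h1.2, h2.2]

/-- number of pairs of tuples with given sums in every family -/
theorem card_tuple_pairs {κ : Type*} [DecidableEq κ] (T : Finset κ) {α : κ → Type*}
    [∀ f, DecidableEq (α f)] {G : κ → Type*} [∀ f, Add (G f)] [∀ f, DecidableEq (G f)]
    (X Y : ∀ f, Finset (α f)) (c : ∀ f, α f → G f) (k : ∀ f, G f) (R : κ → ℕ)
    (hR : ∀ f ∈ T, ((X f ×ˢ Y f).filter fun q => c f q.1 + c f q.2 = k f).card ≤ R f) :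
    ((T.pi X ×ˢ T.pi Y).filter fun q => ∀ f, ∀ hf : f ∈ T,
      c f (q.1 f hf) + c f (q.2 f hf) = k f).card ≤ ∏ f ∈ T, R f := by
  classical
  have h : ((T.pi X ×ˢ T.pi Y).filter fun q => ∀ f, ∀ hf : f ∈ T,
      c f (q.1 f hf) + c f (q.2 f hf) = k f).card ≤
      (T.pi fun f => (X f ×ˢ Y f).filter fun q => c f q.1 + c f q.2 = k f).card := by
    apply Finset.card_le_card_of_injOn (fun q => fun f hf => (q.1 f hf, q.2 f hf))
    · intro q hq
      have hq' := Finset.mem_filter.1 (Finset.mem_coe.1 hq)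
      have hq1 := Finset.mem_product.1 hq'.1
      rw [Finset.mem_coe, Finset.mem_pi]
      intro f hf
      rw [Finset.mem_filter, Finset.mem_product]
      exact ⟨⟨Finset.mem_pi.1 hq1.1 f hf, Finset.mem_pi.1 hq1.2 f hf⟩, hq'.2 f hf⟩
    · intro q _ q' _ hqq
      have h1 : ∀ f (hf : f ∈ T), q.1 f hf = q'.1 f hf ∧ q.2 f hf = q'.2 f hf := by
        intro f hf
        have := congrFun (congrFun hqq f) hf
        simpa using this
      apply Prod.ext
      · funext f hf; exact (h1 f hf).1
      · funext f hf; exact (h1 f hf).2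
  rw [Finset.card_pi] at h
  exact h.trans (Finset.prod_le_prod' hR)

end ET4
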