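import Mathlib

/-! Logarithms modulo `p ^ a` (`p` an odd prime). -/

namespace ET4

/-- existence of the exponent -/
lemma exists_pow_one_add {p : ℕ} (hp : p.Prime) (hp2 : p ≠ 2) (a : ℕ) {x : ℕ} (hx : ¬ p ∣ x) :
    ∃ k : ℕ, (1 + (p : ZMod (p ^ (a + 1)))) ^ k = (x : ZMod (p ^ (a + 1))) ^ (p - 1) := by
  have hcyc : IsCyclic (ZMod (p ^ (a + 1)))ˣ := ZMod.isCyclic_units_of_prime_pow p hp hp2 (a + 1)
  have : NeZero (p ^ (a + 1)) := ⟨pow_ne_zero _ hp.ne_zero⟩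
  have hxu : IsUnit (x : ZMod (p ^ (a + 1))) := by
    rw [ZMod.isUnit_iff_coprime]
    exact Nat.Coprime.pow_right _ ((Nat.Prime.coprime_iff_not_dvd hp).2 hx).symm
  have hg : orderOf (1 + (p : ZMod (p ^ (a + 1)))) = p ^ a := ZMod.orderOf_one_add_prime hp hp2 a
  have hgu : IsUnit (1 + (p : ZMod (p ^ (a + 1)))) := by
    have : (1 + (p : ZMod (p ^ (a + 1)))) = ((1 + p : ℕ) : ZMod (p ^ (a + 1))) := by push_cast; ring
    rw [this, ZMod.isUnit_iff_coprime]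
    apply Nat.Coprime.pow_right
    simp
  obtain ⟨u, hu⟩ := hxu
  obtain ⟨g, hgg⟩ := hgu
  have hgo : orderOf g = p ^ a := by rw [← hg, ← hgg, orderOf_units]
  have hcard : Fintype.card (ZMod (p ^ (a + 1)))ˣ = p ^ a * (p - 1) := by
    rw [ZMod.card_units_eq_totient, Nat.totient_prime_pow_succ hp]
  -- elements with y ^ (p ^ a) = 1
  have h1 : (Finset.univ.filter fun y : (ZMod (p ^ (a + 1)))ˣ => y ^ (p ^ a) = 1).card ≤ p ^ a :=
    IsCyclic.card_pow_eq_one_le (pow_pos hp.pos a)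
  have hsub : (Finset.range (p ^ a)).image (fun k => g ^ k) ⊆
      Finset.univ.filter fun y : (ZMod (p ^ (a + 1)))ˣ => y ^ (p ^ a) = 1 := by
    intro y hy
    simp only [Finset.mem_image, Finset.mem_range] at hy
    obtain ⟨k, -, rfl⟩ := hy
    simp only [Finset.mem_filter, Finset.mem_univ, true_and]
    rw [← pow_mul, mul_comm, pow_mul, ← hgo, pow_orderOf_eq_one, one_pow]
  have hcardim : ((Finset.range (p ^ a)).image (fun k => g ^ k)).card = p ^ a := by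
    rw [Finset.card_image_of_injOn, Finset.card_range]
    intro i hi j hj hij
    simp only [Finset.coe_range, Set.mem_Iio] at hi hj
    exact pow_injOn_Iio_orderOf (by simpa [hgo] using hi) (by simpa [hgo] using hj) hij
  have heq := Finset.eq_of_subset_of_card_le hsub (by rw [hcardim]; exact h1)
  have hmem : u ^ (p - 1) ∈ Finset.univ.filter
      fun y : (ZMod (p ^ (a + 1)))ˣ => y ^ (p ^ a) = 1 := by
    simp only [Finset.mem_filter, Finset.mem_univ, true_and]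
    rw [← pow_mul, mul_comm (p - 1), ← hcard, pow_card_eq_one]
  rw [← heq] at hmem
  simp only [Finset.mem_image, Finset.mem_range] at hmem
  obtain ⟨k, -, hk⟩ := hmem
  refine ⟨k, ?_⟩
  rw [← hgg, ← hu, ← Units.val_pow_eq_pow_val, hk, Units.val_pow_eq_pow_val]

open Classical in
/-- the logarithm modulo `p ^ a` of `x` (depends on `x` modulo `p ^ (a + 1)`) -/
noncomputable def lg (p a x : ℕ) : ZMod (p ^ a) :=
  if h : ∃ k : ℕ, (1 + (p : ZMod (p ^ (a + 1)))) ^ k = (x : ZMod (p ^ (a + 1))) ^ (p - 1) then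
    ((Classical.choose h : ℕ) : ZMod (p ^ a)) else 0

lemma pow_one_add_eq_iff {p : ℕ} (hp : p.Prime) (hp2 : p ≠ 2) (a k l : ℕ) :
    (1 + (p : ZMod (p ^ (a + 1)))) ^ k = (1 + (p : ZMod (p ^ (a + 1)))) ^ l ↔
      (k : ZMod (p ^ a)) = (l : ZMod (p ^ a)) := by
  have hg : orderOf (1 + (p : ZMod (p ^ (a + 1)))) = p ^ a := ZMod.orderOf_one_add_prime hp hp2 a
  have hgu : IsUnit (1 + (p : ZMod (p ^ (a + 1)))) := by
    have : (1 + (p : ZMod (p ^ (a + 1)))) = ((1 + p : ℕ) : ZMod (p ^ (a + 1))) := by push_cast; ring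
    rw [this, ZMod.isUnit_iff_coprime]
    apply Nat.Coprime.pow_right
    simp
  obtain ⟨g, hgg⟩ := hgu
  have hgo : orderOf g = p ^ a := by rw [← hg, ← hgg, orderOf_units]
  rw [← hgg, ← Units.val_pow_eq_pow_val, ← Units.val_pow_eq_pow_val, Units.val_inj,
    pow_eq_pow_iff_modEq, hgo, ZMod.natCast_eq_natCast_iff]

/-- characterisation -/
lemma lg_eq_iff {p : ℕ} (hp : p.Prime) (hp2 : p ≠ 2) {a x : ℕ} (hx : ¬ p ∣ x) (k : ℕ) :
    lg p a x = (k : ZMod (p ^ a)) ↔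
      (1 + (p : ZMod (p ^ (a + 1)))) ^ k = (x : ZMod (p ^ (a + 1))) ^ (p - 1) := by
  have h := exists_pow_one_add hp hp2 a hx
  have hc := Classical.choose_spec h
  unfold lg
  rw [dif_pos h, ← pow_one_add_eq_iff hp hp2 a, hc]
  exact ⟨fun h => h.symm, fun h => h.symm⟩

lemma exists_lg {p : ℕ} (hp : p.Prime) (hp2 : p ≠ 2) (a : ℕ) {x : ℕ} (hx : ¬ p ∣ x) :
    ∃ k : ℕ, lg p a x = (k : ZMod (p ^ a)) ∧
      (1 + (p : ZMod (p ^ (a + 1)))) ^ k = (x : ZMod (p ^ (a + 1))) ^ (p - 1) := by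
  obtain ⟨k, hk⟩ := exists_pow_one_add hp hp2 a hx
  exact ⟨k, (lg_eq_iff hp hp2 hx k).2 hk, hk⟩

lemma not_dvd_mul {p : ℕ} (hp : p.Prime) {x y : ℕ} (hx : ¬ p ∣ x) (hy : ¬ p ∣ y) :
    ¬ p ∣ x * y := by
  rw [hp.dvd_mul]; tauto

/-- A1 -/
theorem lg_mul {p : ℕ} (hp : p.Prime) (hp2 : p ≠ 2) (a : ℕ) {x y : ℕ} (hx : ¬ p ∣ x)
    (hy : ¬ p ∣ y) : lg p a (x * y) = lg p a x + lg p a y := by
  obtain ⟨k, hk, hk'⟩ := exists_lg hp hp2 a hx
  obtain ⟨l, hl, hl'⟩ := exists_lg hp hp2 a hy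
  rw [hk, hl, ← Nat.cast_add, lg_eq_iff hp hp2 (not_dvd_mul hp hx hy), Nat.cast_mul x y, mul_pow,
    ← hk', ← hl', ← pow_add]

theorem lg_one {p : ℕ} (hp : p.Prime) (hp2 : p ≠ 2) (a : ℕ) : lg p a 1 = 0 := by
  have h1 : ¬ p ∣ 1 := by simpa using hp.ne_one
  have := (lg_eq_iff hp hp2 (a := a) h1 0).2 (by simp)
  simpa using this

/-- `lg p a x` depends on `x` modulo `p ^ (a + 1)` only -/
theorem lg_congr {p a x y : ℕ} (h : (x : ZMod (p ^ (a + 1))) = (y : ZMod (p ^ (a + 1)))) :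
    lg p a x = lg p a y := by
  unfold lg
  rw [h]

theorem lg_congr' {p a x y : ℕ} (h : x ≡ y [MOD p ^ (a + 1)]) : lg p a x = lg p a y :=
  lg_congr ((ZMod.natCast_eq_natCast_iff _ _ _).2 h)

/-- A2: compatibility of the logarithms -/
theorem lg_cast {p : ℕ} (hp : p.Prime) (hp2 : p ≠ 2) {a b x : ℕ} (hab : a ≤ b) (hx : ¬ p ∣ x) :
    (ZMod.castHom (pow_dvd_pow p hab) (ZMod (p ^ a))) (lg p b x) = lg p a x := by
  obtain ⟨k, hk, hk'⟩ := exists_lg hp hp2 b hx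
  rw [hk, map_natCast, eq_comm, lg_eq_iff hp hp2 hx]
  have h2 := congrArg (ZMod.castHom (pow_dvd_pow p (Nat.succ_le_succ hab)) (ZMod (p ^ (a + 1)))) hk'
  rwa [map_pow, map_add, map_one, map_natCast, map_pow, map_natCast] at h2

end ET4
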