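import Pool.Agent.Helper84.ET4.Log

/-! Logarithms modulo `p ^ a`: kernel, linear part, products of two primes. -/

namespace ET4

lemma lg_eq_lg_iff {p : ℕ} (hp : p.Prime) (hp2 : p ≠ 2) {a x y : ℕ} (hx : ¬ p ∣ x)
    (hy : ¬ p ∣ y) : lg p a x = lg p a y ↔
      (x : ZMod (p ^ (a + 1))) ^ (p - 1) = (y : ZMod (p ^ (a + 1))) ^ (p - 1) := by
  obtain ⟨k, hk, hk'⟩ := exists_lg hp hp2 a hx
  rw [eq_comm, hk, lg_eq_iff hp hp2 hy, hk']

/-- the residues modulo `p ^ (a + 1)` with a given logarithm -/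
noncomputable def res (p a : ℕ) (k : ZMod (p ^ a)) : Finset ℕ := by
  classical
  exact (Finset.range (p ^ (a + 1))).filter fun r => ¬ p ∣ r ∧ lg p a r = k

lemma mem_res {p a : ℕ} {k : ZMod (p ^ a)} {r : ℕ} :
    r ∈ res p a k ↔ r < p ^ (a + 1) ∧ ¬ p ∣ r ∧ lg p a r = k := by
  unfold res
  simp [Finset.mem_filter]

/-- A3 -/
theorem card_res {p : ℕ} (hp : p.Prime) (hp2 : p ≠ 2) (a : ℕ) (k : ZMod (p ^ a)) :
    (res p a k).card ≤ p - 1 := by
  classical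
  rcases (res p a k).eq_empty_or_nonempty with h | ⟨r0, h0⟩
  · rw [h]; simp
  have hcyc : IsCyclic (ZMod (p ^ (a + 1)))ˣ := ZMod.isCyclic_units_of_prime_pow p hp hp2 (a + 1)
  have : NeZero (p ^ (a + 1)) := ⟨pow_ne_zero _ hp.ne_zero⟩
  have hunit : ∀ r : ℕ, ¬ p ∣ r → IsUnit (r : ZMod (p ^ (a + 1))) := by
    intro r hr
    rw [ZMod.isUnit_iff_coprime]
    exact Nat.Coprime.pow_right _ ((Nat.Prime.coprime_iff_not_dvd hp).2 hr).symm
  have hp1 : 0 < p - 1 := by have := hp.two_le; omega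
  have hK : (Finset.univ.filter fun y : (ZMod (p ^ (a + 1)))ˣ => y ^ (p - 1) = 1).card ≤ p - 1 :=
    IsCyclic.card_pow_eq_one_le hp1
  refine le_trans ?_ hK
  rw [mem_res] at h0
  obtain ⟨u0, hu0⟩ := hunit r0 h0.2.1
  choose! U hU using hunit
  apply Finset.card_le_card_of_injOn (fun r => U r * u0⁻¹)
  · intro r hr
    have hr' := mem_res.1 (Finset.mem_coe.1 hr)
    have h1 : (r : ZMod (p ^ (a + 1))) ^ (p - 1) = (r0 : ZMod (p ^ (a + 1))) ^ (p - 1) :=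
      (lg_eq_lg_iff hp hp2 hr'.2.1 h0.2.1).1 (hr'.2.2.trans h0.2.2.symm)
    rw [← hU r hr'.2.1, ← hu0, ← Units.val_pow_eq_pow_val, ← Units.val_pow_eq_pow_val,
      Units.val_inj] at h1
    simp only [Finset.coe_filter, Finset.mem_univ, true_and, Set.mem_ofPred_eq]
    rw [mul_pow, h1, ← mul_pow, mul_inv_cancel, one_pow]
  · intro r hr s hs hrs
    have hr' := mem_res.1 (Finset.mem_coe.1 hr)
    have hs' := mem_res.1 (Finset.mem_coe.1 hs)
    have h2 : U r = U s := mul_right_cancel hrs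
    have h3 : (r : ZMod (p ^ (a + 1))) = (s : ZMod (p ^ (a + 1))) := by
      rw [← hU r hr'.2.1, ← hU s hs'.2.1, h2]
    rw [ZMod.natCast_eq_natCast_iff] at h3
    exact Nat.ModEq.eq_of_lt_of_lt h3 hr'.1 hs'.1

lemma not_dvd_one_add_mul {p : ℕ} (hp : p.Prime) {j : ℕ} (hj : 1 ≤ j) (t : ℕ) :
    ¬ p ∣ 1 + p ^ j * t := by
  intro h
  have h1 : p ∣ p ^ j * t := Dvd.dvd.mul_right (dvd_pow_self p (by omega)) t
  have h2 : p ∣ 1 := (Nat.dvd_add_left h1).1 h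
  exact hp.one_lt.ne' (Nat.dvd_one.1 h2)

/-- the logarithm of `1 + p ^ j * t` is linear in `t` if `a + 1 ≤ 2 * j` -/
lemma lg_one_add {p : ℕ} (hp : p.Prime) (hp2 : p ≠ 2) {a j : ℕ} (hj : 1 ≤ j)
    (haj : a + 1 ≤ 2 * j) (t : ℕ) :
    lg p a (1 + p ^ j * t) = (t : ZMod (p ^ a)) * lg p a (1 + p ^ j) := by
  induction t with
  | zero => simpa using lg_one hp hp2 a
  | succ t ih =>
    have h0 : (((1 + p ^ j * (t + 1) : ℕ)) : ZMod (p ^ (a + 1))) =
        (((1 + p ^ j * t) * (1 + p ^ j) : ℕ) : ZMod (p ^ (a + 1))) := by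
      have h1 : (1 + p ^ j * t) * (1 + p ^ j) = 1 + p ^ j * (t + 1) + p ^ (a + 1) *
          (p ^ (2 * j - (a + 1)) * t) := by
        rw [← mul_assoc, ← pow_add, Nat.add_sub_cancel' haj]
        ring
      rw [h1, Nat.cast_add (1 + p ^ j * (t + 1)), Nat.cast_mul (p ^ (a + 1)), ZMod.natCast_self]
      ring
    have hn := not_dvd_one_add_mul hp hj t
    have hn1 : ¬ p ∣ 1 + p ^ j := by simpa using not_dvd_one_add_mul hp hj 1
    rw [lg_congr h0, lg_mul hp hp2 a hn hn1, ih]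
    push_cast
    ring

/-- the logarithm of `1 + p ^ j` is `p ^ (j - 1)` times a unit -/
lemma lg_one_add_pow {p : ℕ} (hp : p.Prime) (hp2 : p ≠ 2) {a j : ℕ} (hj : 1 ≤ j) :
    ∃ u : ℕ, ¬ p ∣ u ∧ lg p a (1 + p ^ j) = ((p ^ (j - 1) * u : ℕ) : ZMod (p ^ a)) := by
  have hn1 : ¬ p ∣ 1 + p ^ j := by simpa using not_dvd_one_add_mul hp hj 1
  rcases Nat.lt_or_ge a j with haj | haj
  · refine ⟨1, by simpa using hp.ne_one, ?_⟩
    have h0 : ((1 + p ^ j : ℕ) : ZMod (p ^ (a + 1))) = ((1 : ℕ) : ZMod (p ^ (a + 1))) := by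
      have h1 : p ^ j = p ^ (a + 1) * p ^ (j - (a + 1)) := by
        rw [← pow_add, Nat.add_sub_cancel' haj]
      rw [h1, Nat.cast_add, Nat.cast_mul, ZMod.natCast_self]; ring
    rw [lg_congr h0, lg_one hp hp2]
    have h2 : p ^ (j - 1) * 1 = p ^ a * p ^ (j - 1 - a) := by
      rw [← pow_add, Nat.add_sub_cancel' (by omega), mul_one]
    rw [h2, Nat.cast_mul, ZMod.natCast_self]; ring
  · obtain ⟨k, hk, hk'⟩ := exists_lg hp hp2 a hn1
    -- p ^ (j - 1) divides k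
    have hd : p ^ (j - 1) ∣ k := by
      have h3 : lg p (j - 1) (1 + p ^ j) = 0 := by
        have h0 : ((1 + p ^ j : ℕ) : ZMod (p ^ (j - 1 + 1))) =
            ((1 : ℕ) : ZMod (p ^ (j - 1 + 1))) := by
          rw [Nat.sub_add_cancel hj, Nat.cast_add, ZMod.natCast_self]; ring
        rw [lg_congr h0, lg_one hp hp2]
      have h4 := lg_cast hp hp2 (a := j - 1) (b := a) (by omega) hn1
      rw [h3, hk, map_natCast, ZMod.natCast_eq_zero_iff] at h4
      exact h4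
    obtain ⟨u, rfl⟩ := hd
    refine ⟨u, ?_, hk⟩
    intro hu
    obtain ⟨v, rfl⟩ := hu
    have h5 := lg_cast hp hp2 (a := j) (b := a) haj hn1
    rw [hk, map_natCast] at h5
    have h6 : p ^ (j - 1) * (p * v) = p ^ j * v := by
      rw [← mul_assoc, ← pow_succ, Nat.sub_add_cancel hj]
    rw [h6, Nat.cast_mul, ZMod.natCast_self, zero_mul] at h5
    have h7 := (lg_eq_iff hp hp2 (a := j) hn1 0).1 (by rw [← h5]; simp)
    rw [pow_zero] at h7
    -- (1 + p ^ j) ^ (p - 1) = 1 + (p - 1) p ^ j modulo p ^ (j + 1)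
    have h8 : ∀ m : ℕ, ((1 + p ^ j : ℕ) : ZMod (p ^ (j + 1))) ^ m =
        1 + (m : ZMod (p ^ (j + 1))) * ((p ^ j : ℕ) : ZMod (p ^ (j + 1))) := by
      intro m
      induction m with
      | zero => simp
      | succ m ih =>
        have h9 : ((p ^ j : ℕ) : ZMod (p ^ (j + 1))) * ((p ^ j : ℕ) : ZMod (p ^ (j + 1))) = 0 := by
          rw [← Nat.cast_mul, ← pow_add, ZMod.natCast_eq_zero_iff]
          exact pow_dvd_pow p (by omega)
        rw [pow_succ (((1 + p ^ j : ℕ)) : ZMod (p ^ (j + 1))) m, ih, Nat.cast_add 1 (p ^ j)]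
        push_cast
        push_cast at h9
        linear_combination (m : ZMod (p ^ (j + 1))) * h9
    rw [h8] at h7
    have h10 : (((p - 1) * p ^ j : ℕ) : ZMod (p ^ (j + 1))) = 0 := by
      rw [Nat.cast_mul]
      linear_combination -h7
    rw [ZMod.natCast_eq_zero_iff, pow_succ, mul_comm (p ^ j) p] at h10
    have h11 : p ∣ p - 1 := Nat.dvd_of_mul_dvd_mul_right (pow_pos hp.pos j) h10
    have h12 := Nat.le_of_dvd (by have := hp.two_le; omega) h11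
    have := hp.two_le
    omega

/-- A4 -/
theorem lg_add_mul_pow {p : ℕ} (hp : p.Prime) (hp2 : p ≠ 2) {a j N : ℕ} (hN : ¬ p ∣ N)
    (hj : 1 ≤ j) (haj : a + 1 ≤ 2 * j) :
    ∃ u : ℕ, ¬ p ∣ u ∧ ∀ i : ℕ, lg p a (N + i * p ^ j) =
      lg p a N + ((i * p ^ (j - 1) * u : ℕ) : ZMod (p ^ a)) := by
  have : NeZero (p ^ (a + 1)) := ⟨pow_ne_zero _ hp.ne_zero⟩
  obtain ⟨u, hu, hu'⟩ := lg_one_add_pow hp hp2 (a := a) hj
  -- inverse of N
  have hcop : Nat.Coprime N (p ^ (a + 1)) :=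
    Nat.Coprime.pow_right _ ((Nat.Prime.coprime_iff_not_dvd hp).2 hN).symm
  obtain ⟨M, hM⟩ : ∃ M : ℕ, ((N * M : ℕ) : ZMod (p ^ (a + 1))) = 1 := by
    refine ⟨((N : ZMod (p ^ (a + 1)))⁻¹).val, ?_⟩
    rw [Nat.cast_mul, ZMod.natCast_val, ZMod.cast_id, ZMod.coe_mul_inv_eq_one N hcop]
  have hMp : ¬ p ∣ M := by
    intro h
    have h1 : ((N * M : ℕ) : ZMod (p ^ (a + 1))) = ((1 : ℕ) : ZMod (p ^ (a + 1))) := by
      rw [hM]; simp
    rw [ZMod.natCast_eq_natCast_iff] at h1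
    have h2 : N * M ≡ 1 [MOD p] := h1.of_dvd (dvd_pow_self p (by omega))
    have h3 : N * M ≡ 0 [MOD p] := (Nat.modEq_zero_iff_dvd).2 (Dvd.dvd.mul_left h N)
    have h4 := h2.symm.trans h3
    exact hp.one_lt.ne' (Nat.dvd_one.1 ((Nat.modEq_zero_iff_dvd).1 h4))
  refine ⟨M * u, fun h => ?_, fun i => ?_⟩
  · rcases (hp.dvd_mul).1 h with h | h
    · exact hMp h
    · exact hu h
  · have h0 : ((N + i * p ^ j : ℕ) : ZMod (p ^ (a + 1))) =
        ((N * (1 + p ^ j * (i * M)) : ℕ) : ZMod (p ^ (a + 1))) := by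
      push_cast
      push_cast at hM
      linear_combination -(i : ZMod (p ^ (a + 1))) * (p : ZMod (p ^ (a + 1))) ^ j * hM
    rw [lg_congr h0, lg_mul hp hp2 a hN (not_dvd_one_add_mul hp hj _), lg_one_add hp hp2 hj haj, hu']
    push_cast
    ring

end ET4
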