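import Pool.Agent.Helper84.ET4.Log2

/-! Products of two primes modulo `p ^ (a + 1)`. -/

namespace ET4

/-- the variables: primes `x ≠ p` with `x ^ 2 < p ^ (a + 1)` -/
def X (p a : ℕ) : Finset ℕ :=
  (Finset.range (p ^ (a + 1))).filter fun x => x.Prime ∧ x ≠ p ∧ x ^ 2 < p ^ (a + 1)

lemma mem_X {p a x : ℕ} : x ∈ X p a ↔ x.Prime ∧ x ≠ p ∧ x ^ 2 < p ^ (a + 1) := by
  unfold X
  rw [Finset.mem_filter, Finset.mem_range]
  constructor
  · rintro ⟨_, h⟩; exact h
  · intro h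
    refine ⟨lt_of_le_of_lt ?_ h.2.2, h⟩
    exact Nat.le_self_pow (by norm_num) x

lemma X_mono {p a b : ℕ} (hp : p.Prime) (hab : a ≤ b) : X p a ⊆ X p b := by
  intro x hx
  rw [mem_X] at hx ⊢
  exact ⟨hx.1, hx.2.1, lt_of_lt_of_le hx.2.2 (Nat.pow_le_pow_right hp.pos (by omega))⟩

lemma prime_of_mem_X {p a x : ℕ} (hx : x ∈ X p a) : x.Prime := (mem_X.1 hx).1

lemma not_dvd_of_mem_X {p a x : ℕ} (hp : p.Prime) (hx : x ∈ X p a) : ¬ p ∣ x := by
  rw [mem_X] at hx
  intro h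
  exact hx.2.1 (((Nat.prime_dvd_prime_iff_eq hp hx.1).1 h).symm)

lemma lt_of_mem_X {p a x : ℕ} (hx : x ∈ X p a) : x < p ^ (a + 1) :=
  lt_of_le_of_lt (Nat.le_self_pow (by norm_num) x) (mem_X.1 hx).2.2

/-- at most two ordered factorizations into two primes -/
lemma card_prime_pairs (m : ℕ) (S T : Finset ℕ) (hS : ∀ x ∈ S, x.Prime) (hT : ∀ x ∈ T, x.Prime) :
    ((S ×ˢ T).filter fun q => q.1 * q.2 = m).card ≤ 2 := by
  rcases ((S ×ˢ T).filter fun q => q.1 * q.2 = m).eq_empty_or_nonempty with h | ⟨⟨x0, y0⟩, h0⟩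
  · rw [h]; simp
  rw [Finset.mem_filter, Finset.mem_product] at h0
  obtain ⟨⟨hx0, hy0⟩, h0⟩ := h0
  have hsub : ((S ×ˢ T).filter fun q => q.1 * q.2 = m) ⊆ {(x0, y0), (y0, x0)} := by
    rintro ⟨x, y⟩ hxy
    rw [Finset.mem_filter, Finset.mem_product] at hxy
    obtain ⟨⟨hx, hy⟩, hm⟩ := hxy
    have hxp := hS x hx
    have hyp := hT y hy
    have hx0p := hS x0 hx0
    have hy0p := hT y0 hy0
    have hd : x ∣ x0 * y0 := ⟨y, by simpa using (h0.trans hm.symm)⟩
    have hm' : x * y = x0 * y0 := by simpa using (hm.trans h0.symm)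
    simp only [Finset.mem_insert, Finset.mem_singleton, Prod.mk.injEq]
    rcases (hxp.dvd_mul).1 hd with h | h
    · left
      have hxe := (Nat.prime_dvd_prime_iff_eq hxp hx0p).1 h
      subst hxe
      exact ⟨rfl, Nat.eq_of_mul_eq_mul_left hxp.pos hm'⟩
    · right
      have hxe := (Nat.prime_dvd_prime_iff_eq hxp hy0p).1 h
      subst hxe
      refine ⟨rfl, ?_⟩
      rw [mul_comm x0 x] at hm'
      exact Nat.eq_of_mul_eq_mul_left hxp.pos hm'
  exact (Finset.card_le_card hsub).trans (Finset.card_le_two)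

/-- A5 (b): the shape of a product of two variables -/
theorem prod_shape {p : ℕ} (hp : p.Prime) (hp2 : p ≠ 2) {A a : ℕ} (haA : a ≤ A) {x x' : ℕ}
    (hx : x ∈ X p A) (hx' : x' ∈ X p a) {k : ZMod (p ^ a)} (hk : lg p a x + lg p a x' = k) :
    (x * x') % p ^ (a + 1) ∈ res p a k ∧ (x * x' / p ^ (a + 1)) ^ 2 < p ^ (A - a) := by
  have hxn := not_dvd_of_mem_X hp hx
  have hxn' := not_dvd_of_mem_X hp hx'
  have hpos : 0 < p ^ (a + 1) := pow_pos hp.pos _
  constructor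
  · rw [mem_res]
    refine ⟨Nat.mod_lt _ hpos, ?_, ?_⟩
    · rw [Nat.dvd_mod_iff (dvd_pow_self p (by omega))]
      exact not_dvd_mul hp hxn hxn'
    · rw [lg_congr' (Nat.mod_modEq (x * x') (p ^ (a + 1))), lg_mul hp hp2 a hxn hxn', hk]
  · have h1 := (mem_X.1 hx).2.2
    have h2 := (mem_X.1 hx').2.2
    have h3 : (x * x') ^ 2 < p ^ (A + 1) * p ^ (a + 1) := by
      rw [mul_pow]; exact Nat.mul_lt_mul'' h1 h2
    have h4 : (x * x' / p ^ (a + 1)) * p ^ (a + 1) ≤ x * x' := Nat.div_mul_le_self _ _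
    have h5 : (x * x' / p ^ (a + 1)) ^ 2 * (p ^ (a + 1) * p ^ (a + 1)) <
        p ^ (A - a) * (p ^ (a + 1) * p ^ (a + 1)) := by
      calc (x * x' / p ^ (a + 1)) ^ 2 * (p ^ (a + 1) * p ^ (a + 1))
          = ((x * x' / p ^ (a + 1)) * p ^ (a + 1)) ^ 2 := by ring
        _ ≤ (x * x') ^ 2 := Nat.pow_le_pow_left h4 2
        _ < p ^ (A + 1) * p ^ (a + 1) := h3
        _ = p ^ (A - a) * (p ^ (a + 1) * p ^ (a + 1)) := by
            have : A + 1 = (A - a) + (a + 1) := by omega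
            rw [this, pow_add]; ring
    exact Nat.lt_of_mul_lt_mul_right h5

/-- A5 (a): for given residue and quotient at most two pairs -/
theorem card_pairs_shape {p A a : ℕ} (r i : ℕ) :
    ((X p A ×ˢ X p a).filter fun q => (q.1 * q.2) % p ^ (a + 1) = r ∧
      q.1 * q.2 / p ^ (a + 1) = i).card ≤ 2 := by
  refine le_trans (Finset.card_le_card ?_) (card_prime_pairs (r + p ^ (a + 1) * i) (X p A) (X p a)
    (fun x hx => prime_of_mem_X hx) (fun x hx => prime_of_mem_X hx))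
  intro q hq
  rw [Finset.mem_filter] at hq ⊢
  refine ⟨hq.1, ?_⟩
  rw [← hq.2.1, ← hq.2.2]
  exact (Nat.mod_add_div _ _).symm

/-- A5 (c): the number of variables with a given logarithm -/
theorem card_X_lg {p : ℕ} (hp : p.Prime) (hp2 : p ≠ 2) {A a : ℕ} (k : ZMod (p ^ a))
    (hA : A + 1 ≤ 2 * (a + 1)) :
    ((X p A).filter fun x => lg p a x = k).card ≤ p - 1 := by
  classical
  refine le_trans (Finset.card_le_card ?_) (card_res hp hp2 a k)
  intro x hx
  rw [Finset.mem_filter] at hx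
  rw [mem_res]
  refine ⟨?_, not_dvd_of_mem_X hp hx.1, hx.2⟩
  have h1 := (mem_X.1 hx.1).2.2
  have h2 : x ^ 2 < (p ^ (a + 1)) ^ 2 := by
    rw [← pow_mul]
    exact lt_of_lt_of_le h1 (Nat.pow_le_pow_right hp.pos (by omega))
  exact lt_of_pow_lt_pow_left₀ 2 (Nat.zero_le _) h2

/-- A5 (c'): general upper bound for the number of variables with a given logarithm -/
theorem card_lg_lt {p : ℕ} (hp : p.Prime) (hp2 : p ≠ 2) {a : ℕ} (k : ZMod (p ^ a)) (B : ℕ) :
    ((Finset.range (p ^ (a + 1) * B)).filter fun x => ¬ p ∣ x ∧ lg p a x = k).card ≤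
      (p - 1) * B := by
  classical
  have hpos : 0 < p ^ (a + 1) := pow_pos hp.pos _
  have h : ((Finset.range (p ^ (a + 1) * B)).filter fun x => ¬ p ∣ x ∧ lg p a x = k).card ≤
      (res p a k ×ˢ Finset.range B).card := by
    apply Finset.card_le_card_of_injOn (fun x => (x % p ^ (a + 1), x / p ^ (a + 1)))
    · intro x hx
      have hx' := Finset.mem_filter.1 (Finset.mem_coe.1 hx)
      rw [Finset.mem_coe, Finset.mem_product, mem_res, Finset.mem_range]
      refine ⟨⟨Nat.mod_lt _ hpos, ?_, ?_⟩, ?_⟩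
      · rw [Nat.dvd_mod_iff (dvd_pow_self p (by omega))]
        exact hx'.2.1
      · rw [lg_congr' (Nat.mod_modEq x (p ^ (a + 1))), hx'.2.2]
      · exact (Nat.div_lt_iff_lt_mul hpos).2 (by rw [mul_comm]; exact Finset.mem_range.1 hx'.1)
    · intro x _ y _ hxy
      simp only [Prod.mk.injEq] at hxy
      rw [← Nat.mod_add_div x (p ^ (a + 1)), ← Nat.mod_add_div y (p ^ (a + 1)), hxy.1, hxy.2]
  refine h.trans ?_
  rw [Finset.card_product, Finset.card_range]
  exact Nat.mul_le_mul_right B (card_res hp hp2 a k)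

/-- A5 static: for every `k` at most `2 (p - 1)` pairs -/
theorem card_pairs_static {p : ℕ} (hp : p.Prime) (hp2 : p ≠ 2) (a : ℕ) (k : ZMod (p ^ a)) :
    ((X p a ×ˢ X p a).filter fun q => lg p a q.1 + lg p a q.2 = k).card ≤ 2 * (p - 1) := by
  classical
  have h1 : ((X p a ×ˢ X p a).filter fun q => lg p a q.1 + lg p a q.2 = k) ⊆
      (res p a k).biUnion fun r => (X p a ×ˢ X p a).filter fun q =>
        (q.1 * q.2) % p ^ (a + 1) = r ∧ q.1 * q.2 / p ^ (a + 1) = 0 := by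
    intro q hq
    rw [Finset.mem_filter, Finset.mem_product] at hq
    have h2 := prod_shape hp hp2 (le_refl a) hq.1.1 hq.1.2 hq.2
    rw [Finset.mem_biUnion]
    refine ⟨_, h2.1, ?_⟩
    rw [Finset.mem_filter, Finset.mem_product]
    refine ⟨hq.1, rfl, ?_⟩
    have h3 := h2.2
    rw [Nat.sub_self, pow_zero] at h3
    nlinarith
  calc _ ≤ _ := Finset.card_le_card h1
    _ ≤ ∑ r ∈ res p a k, ((X p a ×ˢ X p a).filter fun q =>
        (q.1 * q.2) % p ^ (a + 1) = r ∧ q.1 * q.2 / p ^ (a + 1) = 0).card :=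
        Finset.card_biUnion_le
    _ ≤ ∑ r ∈ res p a k, 2 := Finset.sum_le_sum fun r _ => card_pairs_shape r 0
    _ = (res p a k).card * 2 := by rw [Finset.sum_const, smul_eq_mul]
    _ ≤ 2 * (p - 1) := by
        have := card_res hp hp2 a k
        omega

end ET4
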