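import Pool.Agent.Helper5.ET.Defs
import Pool.Agent.Helper3.T4.Decode

/-!
# T4': decoding of hits with a given key (block M, part M1)
-/

namespace Pool.Agent.Helper84.ET

open Finset Pool.Agent.Helper27.T4 Pool.Agent.Helper3.T4 Pool.Agent.Helper5.ET

theorem cnt_mono (f : Fin 3) {y z : ℕ} (h : y ≤ z) : cnt f y ≤ cnt f z := by
  unfold cnt
  apply Finset.card_le_card
  intro t ht
  rw [Finset.mem_filter, Finset.mem_range] at ht ⊢
  exact ⟨lt_of_lt_of_le ht.1 h, ht.2⟩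

theorem av_mono {y z : ℕ} (h : y ≤ z) : av y ≤ av z := fun f => cnt_mono f h

theorem Nj_dvd {y z : ℕ} (h : y ≤ z) : Nj y ∣ Nj z := NN_dvd pr (av_mono h)

theorem mem_XX {s : ℕ} {x : Fin 3 → ℕ} (hx : x ∈ XX s) (f : Fin 3) :
    (x f).Prime ∧ (x f).Coprime (pr f) ∧ (x f) ^ 2 < pr f ^ cnt f (sl s) := by
  unfold XX at hx
  rw [Fintype.mem_piFinset] at hx
  have h := hx f
  rw [Finset.mem_filter] at h
  exact h.2

/-- the code at a lower level -/
theorem code_comp_red (s : ℕ) (w : Key → ℕ) (x : Fin 3 → ℕ) (f : Fin 3) {j : ℕ} (hj : j ≤ se s)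
    (hx : (x f).Coprime (pr f)) :
    ((code s w x : ℕ) : ZMod (pr f ^ cnt f j)) =
      Lg (pr f) (cnt f j) (x f) + ((hv s w f x : ℕ) : ZMod (pr f ^ cnt f j)) := by
  have h1 : ((code s w x : ℕ) : ZMod (pr f ^ av (se s) f)) = cmp s w x f :=
    cv_cast_comp pr_prime pr_inj (av (se s)) (cmp s w x) f
  have hj' : cnt f j ≤ av (se s) f := cnt_mono f hj
  have h2 := congrArg (ZMod.castHom (pow_dvd_pow (pr f) hj') (ZMod (pr f ^ cnt f j))) h1
  rw [map_natCast] at h2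
  rw [h2]
  unfold Pool.Agent.Helper5.ET.cmp
  rw [map_add, map_natCast]
  congr 1
  exact Lg_red (pr_prime f) (pr_ne_two f) (cnt f (se s)) (cnt f j) (x f) hx (cnt_mono f hj)

/-- the hash value depends on the coordinates in `pre` only -/
theorem hv_congr (s : ℕ) (w : Key → ℕ) (f : Fin 3) {x y : Fin 3 → ℕ}
    (h : ∀ g ∈ pre (sl s) f, x g = y g) : hv s w f x = hv s w f y := by
  unfold hv
  have : mask (pre (sl s) f) x = mask (pre (sl s) f) y := by
    funext g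
    unfold mask
    by_cases hg : g ∈ pre (sl s) f
    · rw [if_pos hg, if_pos hg, h g hg]
    · rw [if_neg hg, if_neg hg]
  rw [this]

/-- the equations of a hit -/
def HitEq (s s' : ℕ) (w : Key → ℕ) (n : ℕ) (x x' : Fin 3 → ℕ) : Prop :=
  ∀ f, (Lg (pr f) (cnt f (sl s')) (x f) + ((hv s w f x : ℕ) : ZMod (pr f ^ cnt f (sl s')))) +
    (Lg (pr f) (cnt f (sl s')) (x' f) + ((hv s' w f x' : ℕ) : ZMod (pr f ^ cnt f (sl s')))) =
      (n : ZMod (pr f ^ cnt f (sl s')))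

/-- the equations of a hit, from the sum of the codes -/
theorem hitEq_of_code {s s' : ℕ} {w : Key → ℕ} {n : ℕ} {x x' : Fin 3 → ℕ} (hx : x ∈ XX s)
    (hx' : x' ∈ XX s') (h1 : sl s' ≤ se s) (h2 : sl s' ≤ se s')
    (h : ((code s w x + code s' w x' : ℕ) : ZMod (Nj (sl s'))) = (n : ZMod (Nj (sl s')))) :
    HitEq s s' w n x x' := by
  intro f
  have h3 := (natCast_eq_iff pr_prime pr_inj (av (sl s')) _ _).mp h f
  change ((code s w x + code s' w x' : ℕ) : ZMod (pr f ^ cnt f (sl s'))) = n at h3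
  rw [Nat.cast_add, code_comp_red s w x f h1 (mem_XX hx f).2.1,
    code_comp_red s' w x' f h2 (mem_XX hx' f).2.1] at h3
  exact h3

/-- the equations of a hit -/
theorem hitEq_of_el {s s' : ℕ} {w : Key → ℕ} {n : ℕ} {x x' : Fin 3 → ℕ} {v v' : ℕ}
    (hx : x ∈ XX s) (hx' : x' ∈ XX s') (h0 : sl s' ≤ sl s) (h1 : sl s ≤ se s)
    (h2 : sl s' ≤ se s') (h : el s w x v + el s' w x' v' = n) : HitEq s s' w n x x' := by
  apply hitEq_of_code hx hx' (h0.trans h1) h2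
  subst h
  unfold el
  have hd : Nj (sl s') ∣ Nj (sl s) := Nj_dvd h0
  obtain ⟨q, hq⟩ := hd
  push_cast
  rw [hq]
  push_cast
  rw [ZMod.natCast_self]
  ring

/-- a common rank of the hash relations of two states -/
def CRank (s s' : ℕ) (rkc : Fin 3 → ℕ) : Prop :=
  ∀ f g, g ∈ pre (sl s) f ∨ g ∈ pre (sl s') f → rkc g < rkc f

theorem hv_left {s s' : ℕ} {rkc : Fin 3 → ℕ} (hr : CRank s s' rkc) (w : Key → ℕ) (f : Fin 3)
    {x y : Fin 3 → ℕ} (h : ∀ g, rkc g < rkc f → x g = y g) : hv s w f x = hv s w f y :=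
  hv_congr s w f (fun g hg => h g (hr f g (Or.inl hg)))

theorem hv_right {s s' : ℕ} {rkc : Fin 3 → ℕ} (hr : CRank s s' rkc) (w : Key → ℕ) (f : Fin 3)
    {x y : Fin 3 → ℕ} (h : ∀ g, rkc g < rkc f → x g = y g) : hv s' w f x = hv s' w f y :=
  hv_congr s' w f (fun g hg => h g (hr f g (Or.inr hg)))

/-- one family: pairs with a fixed first component -/
theorem card_fix_left {p : ℕ} (hp : p.Prime) (hp2 : p ≠ 2) (b c : ℕ) (t : ZMod (p ^ b))
    (S : Finset (ℕ × ℕ)) (hS : ∀ z ∈ S, z.1 = c ∧ z.2.Coprime p ∧ z.2 ^ 2 < p ^ b ∧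
      Lg p b z.2 = t) : S.card ≤ p - 1 := by
  classical
  have hinj : Set.InjOn (Prod.snd : ℕ × ℕ → ℕ) S := by
    intro z hz z' hz' h
    exact Prod.ext ((hS z hz).1.trans (hS z' hz').1.symm) h
  rw [← Finset.card_image_of_injOn hinj]
  have h := card_single_le hp hp2 b b t (S.image Prod.snd) ?_
  · have h0 : (b - 2 * b) / 2 = 0 := by omega
    rw [h0, pow_zero, mul_one] at h
    exact h
  · intro y hy
    obtain ⟨z, hz, rfl⟩ := Finset.mem_image.mp hy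
    exact (hS z hz).2

/-- one family: pairs with a fixed second component -/
theorem card_fix_right {p : ℕ} (hp : p.Prime) (hp2 : p ≠ 2) (a b c : ℕ) (hab : a ≤ 2 * b + 1)
    (t : ZMod (p ^ b)) (S : Finset (ℕ × ℕ)) (hS : ∀ z ∈ S, z.2 = c ∧ z.1.Coprime p ∧
      z.1 ^ 2 < p ^ a ∧ Lg p b z.1 = t) : S.card ≤ p - 1 := by
  classical
  have hinj : Set.InjOn (Prod.fst : ℕ × ℕ → ℕ) S := by
    intro z hz z' hz' h
    exact Prod.ext h ((hS z hz).1.trans (hS z' hz').1.symm)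
  rw [← Finset.card_image_of_injOn hinj]
  have h := card_single_le hp hp2 a b t (S.image Prod.fst) ?_
  · have h0 : (a - 2 * b) / 2 = 0 := by omega
    rw [h0, pow_zero, mul_one] at h
    exact h
  · intro y hy
    obtain ⟨z, hz, rfl⟩ := Finset.mem_image.mp hy
    exact (hS z hz).2

/-- pairs of tuples as tuples of pairs -/
def zip (z : (Fin 3 → ℕ) × (Fin 3 → ℕ)) : Fin 3 → ℕ × ℕ := fun f => (z.1 f, z.2 f)

theorem zip_injective : Function.Injective zip := by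
  intro z z' h
  apply Prod.ext
  · funext f; exact congrArg Prod.fst (congrFun h f)
  · funext f; exact congrArg Prod.snd (congrFun h f)

/-- the counting lemma: every family is either given on one side or static -/
theorem card_pairs_mode (s s' : ℕ) (w : Key → ℕ) (n : ℕ) (rkc : Fin 3 → ℕ)
    (hr : CRank s s' rkc) (S : Finset ((Fin 3 → ℕ) × (Fin 3 → ℕ)))
    (hS : ∀ z ∈ S, z.1 ∈ XX s ∧ z.2 ∈ XX s' ∧ HitEq s s' w n z.1 z.2)
    (hm : ∀ f, cnt f (sl s) = cnt f (sl s') ∨ (∃ c, ∀ z ∈ S, z.1 f = c) ∨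
      (cnt f (sl s) ≤ 2 * cnt f (sl s') + 1 ∧ ∃ c, ∀ z ∈ S, z.2 f = c)) :
    S.card ≤ ∏ f, (2 * (pr f - 1)) := by
  classical
  rw [← Finset.card_image_of_injective S zip_injective]
  refine card_le_prod_of_rank rkc _ _ ?_
  intro f g hg
  obtain ⟨z0, hz0, rfl⟩ := Finset.mem_image.mp hg
  have key : ∀ y, (∃ z ∈ S, (∀ i, rkc i < rkc f → zip z i = zip z0 i) ∧ zip z f = y) →
      ∃ z ∈ S, y = (z.1 f, z.2 f) ∧
        (Lg (pr f) (cnt f (sl s')) y.1 + Lg (pr f) (cnt f (sl s')) y.2 =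
        (n : ZMod (pr f ^ cnt f (sl s'))) - ((hv s w f z0.1 : ℕ) : ZMod (pr f ^ cnt f (sl s'))) -
          ((hv s' w f z0.2 : ℕ) : ZMod (pr f ^ cnt f (sl s')))) := by
    rintro y ⟨z, hz, hg2, rfl⟩
    refine ⟨z, hz, rfl, ?_⟩
    obtain ⟨h1, h2, h3⟩ := hS z hz
    have h5 := h3 f
    have h6 : hv s w f z.1 = hv s w f z0.1 :=
      hv_left hr w f (fun g hg => congrArg Prod.fst (hg2 g hg))
    have h7 : hv s' w f z.2 = hv s' w f z0.2 :=
      hv_right hr w f (fun g hg => congrArg Prod.snd (hg2 g hg))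
    rw [h6, h7] at h5
    change Lg (pr f) (cnt f (sl s')) (z.1 f) + Lg (pr f) (cnt f (sl s')) (z.2 f) = _
    rw [← h5]
    ring
  have hp1 : pr f - 1 ≤ 2 * (pr f - 1) := by omega
  rcases hm f with hc | ⟨c, hc⟩ | ⟨hab, c, hc⟩
  · refine card_pairs_static (pr_prime f) (pr_ne_two f) (cnt f (sl s'))
      ((n : ZMod (pr f ^ cnt f (sl s'))) - ((hv s w f z0.1 : ℕ) : ZMod (pr f ^ cnt f (sl s'))) -
          ((hv s' w f z0.2 : ℕ) : ZMod (pr f ^ cnt f (sl s')))) _ ?_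
    intro y hy
    obtain ⟨z, hz, rfl, hz2⟩ := key y (by
      simp only [Finset.mem_image, Finset.mem_filter] at hy
      obtain ⟨_, ⟨⟨z, hz, rfl⟩, hz2⟩, rfl⟩ := hy
      exact ⟨z, hz, hz2, rfl⟩)
    obtain ⟨h1, h2, h3⟩ := hS z hz
    refine ⟨(mem_XX h1 f).1, (mem_XX h2 f).1, (mem_XX h1 f).2.1, (mem_XX h2 f).2.1, ?_,
      (mem_XX h2 f).2.2, hz2⟩
    have := (mem_XX h1 f).2.2
    rwa [hc] at this
  · refine le_trans (card_fix_left (pr_prime f) (pr_ne_two f) (cnt f (sl s')) c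
      ((n : ZMod (pr f ^ cnt f (sl s'))) - ((hv s w f z0.1 : ℕ) : ZMod (pr f ^ cnt f (sl s'))) -
          ((hv s' w f z0.2 : ℕ) : ZMod (pr f ^ cnt f (sl s'))) - Lg (pr f) (cnt f (sl s')) c)
      _ ?_) hp1
    intro y hy
    obtain ⟨z, hz, rfl, hz2⟩ := key y (by
      simp only [Finset.mem_image, Finset.mem_filter] at hy
      obtain ⟨_, ⟨⟨z, hz, rfl⟩, hz2⟩, rfl⟩ := hy
      exact ⟨z, hz, hz2, rfl⟩)
    obtain ⟨h1, h2, h3⟩ := hS z hz
    refine ⟨hc z hz, (mem_XX h2 f).2.1, (mem_XX h2 f).2.2, ?_⟩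
    rw [← hz2]
    change _ = Lg (pr f) (cnt f (sl s')) (z.1 f) + Lg (pr f) (cnt f (sl s')) (z.2 f) - _
    rw [hc z hz]
    ring
  · refine le_trans (card_fix_right (pr_prime f) (pr_ne_two f) (cnt f (sl s)) (cnt f (sl s')) c hab
      ((n : ZMod (pr f ^ cnt f (sl s'))) - ((hv s w f z0.1 : ℕ) : ZMod (pr f ^ cnt f (sl s'))) -
          ((hv s' w f z0.2 : ℕ) : ZMod (pr f ^ cnt f (sl s'))) - Lg (pr f) (cnt f (sl s')) c)
      _ ?_) hp1
    intro y hy
    obtain ⟨z, hz, rfl, hz2⟩ := key y (by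
      simp only [Finset.mem_image, Finset.mem_filter] at hy
      obtain ⟨_, ⟨⟨z, hz, rfl⟩, hz2⟩, rfl⟩ := hy
      exact ⟨z, hz, hz2, rfl⟩)
    obtain ⟨h1, h2, h3⟩ := hS z hz
    refine ⟨hc z hz, (mem_XX h1 f).2.1, (mem_XX h1 f).2.2, ?_⟩
    rw [← hz2]
    change _ = Lg (pr f) (cnt f (sl s')) (z.1 f) + Lg (pr f) (cnt f (sl s')) (z.2 f) - _
    rw [hc z hz]
    ring

theorem prod_le : ∏ f, (2 * (pr f - 1)) ≤ 10 ^ 20 := by
  rw [Fin.prod_univ_three]
  have h0 : pr 0 = 1000003 := rfl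
  have h1 : pr 1 = 1000033 := rfl
  have h2 : pr 2 = 1000037 := rfl
  rw [h0, h1, h2]
  norm_num

end Pool.Agent.Helper84.ET
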